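import Pool.Agent.Lib.MP_71c87b_al.Arith

/-!
The numerical semigroups generated by an arithmetic sequence that lie in the least Frobenius
variety containing the complete intersections.
-/

namespace Pool.Agent.Results.MP_71c87b_al.Arithmetic

open Pool.Agent.Lib.MP_71c87b_al Pool.Agent.Lib.MP_71c87b_al.Arith

theorem result (a d x : ℕ) (hd : 0 < d) (hx : 0 < x) (hxa : x < a) (hc : Nat.Coprime a d) :
    AddSubmonoid.closure {n : ℕ | ∃ i, i ≤ x ∧ n = a + i * d} ∈ VCI ↔
      x = 1 ∨ (x = 2 ∧ Even a) ∨
        (x + 1 = a ∧ (d = 1 ∨ a ≤ 4 ∨ (a = 5 ∧ d = 2) ∨ (a = 6 ∧ d = 5))) := by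
  rw [even_iff_two_dvd]
  constructor
  · intro h
    by_contra hn
    by_cases h1 : x + 1 = a
    · exact neg_full hc (by omega) h1 (by omega) (by omega) (by omega) h
    · have := neg_short hc hd (by omega) (by omega) h
      omega
  · rintro (rfl | ⟨rfl, h⟩ | ⟨h, rfl | h4 | ⟨rfl, rfl⟩ | ⟨rfl, rfl⟩⟩)
    · exact pos_one hc hd (by omega)
    · exact pos_two hc hd (by omega) h
    · exact pos_ord hx h
    · obtain rfl | rfl | rfl : x = 1 ∨ x = 2 ∨ x = 3 := by omega
      · exact pos_one hc hd (by omega)
      · subst h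
        exact Irr.of_three (numerical hx (by omega) hc) zero_mem'
      · subst h
        rcases (by omega : d = 1 ∨ 2 ≤ d) with rfl | h2
        · exact pos_ord hx rfl
        · exact pos_four hc h2
    · obtain rfl : x = 4 := by omega
      exact pos_five
    · obtain rfl : x = 5 := by omega
      exact pos_six

end Pool.Agent.Results.MP_71c87b_al.Arithmetic
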