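import Pool.Agent.Lib.MP_71c87b_al.Variety

/-!
An explicit finite description of the least Frobenius variety containing all complete
intersection numerical semigroups.
-/

namespace Pool.Agent.Results.MP_71c87b_al.Criterion

open Pool.Agent.Lib.MP_71c87b_al

theorem result (T : AddSubmonoid ℕ) :
    T ∈ VCI ↔ IsNumerical T ∧
      ∀ g m : ℕ, IsSpecialGap T g → IsLeast {t | t ∈ T ∧ t ≠ 0} m → m < g →
        ∃ A : Finset ℕ, Glued A ∧ 2 ^ A.card ≤ 2 * m ∧ (∀ a ∈ A, a ≤ m * (g - 1)) ∧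
          (∀ t ∈ T, t < g → t ∈ AddSubmonoid.closure (A : Set ℕ)) ∧
          g ∉ AddSubmonoid.closure (A : Set ℕ) := by
  rw [mem_VCI]
  refine and_congr_right fun hT => ⟨fun h g m hg hm hmg => ?_,
    fun h => sep_of_special hT fun g hg => ?_⟩
  · obtain ⟨S, s1, s2, s3⟩ := h g hg.1
    have hcl : AddSubmonoid.closure ((gens_finite S).toFinset : Set ℕ) = S := by
      rw [Set.Finite.coe_toFinset, closure_gens]
    obtain ⟨a, ha, ham⟩ := exists_le_of_mem (hcl.symm ▸ s2 m hm.1.1 hmg) hm.1.2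
    obtain ⟨A, a1, a2, a3, a4⟩ := s1.glued.keep (g - 1) ⟨a, ha, by omega⟩
    have hA : ∀ t ∈ T, t < g → t ∈ AddSubmonoid.closure (A : Set ℕ) :=
      fun t ht e => a3 t (hcl.symm ▸ s2 t ht e) (by omega)
    obtain ⟨b, hb, hbm⟩ := exists_le_of_mem (hA m hm.1.1 hmg) hm.1.2
    refine ⟨A, a2, ?_, fun x hx => ?_, hA, fun e =>
      s3 (hcl ▸ AddSubmonoid.closure_mono (Finset.coe_subset.2 a1) e)⟩
    · have := a2.two_pow (S := S) (fun x hx => (Set.Finite.mem_toFinset _).1 (a1 hx)) b hb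
      exact ((Nat.le_mul_of_pos_right _ a2.gcd_pos).trans this).trans (by omega)
    · exact ((Nat.le_mul_of_pos_right _ s1.glued.gcd_pos).trans (a4 x hx a ha)).trans
        (Nat.mul_le_mul_right _ ham)
  · have h0 : g ≠ 0 := fun e => hg.1 (e ▸ T.zero_mem)
    have hne : {t | t ∈ T ∧ t ≠ 0}.Nonempty := ⟨2 * g, hg.2.1, by omega⟩
    have hm : IsLeast {t | t ∈ T ∧ t ≠ 0} (sInf {t | t ∈ T ∧ t ≠ 0}) :=
      ⟨Nat.sInf_mem hne, fun _ ht => Nat.sInf_le ht⟩
    by_cases hlt : sInf {t | t ∈ T ∧ t ≠ 0} < g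
    · obtain ⟨A, a1, -, -, a2, a3⟩ := h g _ hg hm hlt
      exact a1.sep a2 a3
    · refine (Glued.single (g + 1) (by omega)).sep (fun t ht e => ?_) fun e => ?_
      · by_cases e' : t = 0
        · exact e' ▸ zero_mem _
        · have := hm.2 ⟨ht, e'⟩
          omega
      · obtain ⟨c, hc, hcg⟩ := exists_le_of_mem e h0
        rw [Finset.mem_singleton] at hc
        omega

end Pool.Agent.Results.MP_71c87b_al.Criterion
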