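import Pool.Agent.Lib.MP_71c87b_al.Irr

/-!
The irreducible members of the least Frobenius variety containing all complete intersection
numerical semigroups, in closed form.
-/

namespace Pool.Agent.Results.MP_71c87b_al.Irreducible

open Pool.Agent.Lib.MP_71c87b_al

theorem result (T : AddSubmonoid ℕ) (hT : IsIrred T) :
    T ∈ VCI ↔ IsCI T ∨ 3 ∈ T ∨ T = AddSubmonoid.closure ({4, 5, 7} : Set ℕ) := by
  refine ⟨Irr.main hT, ?_⟩
  rintro (h | h | h)
  · exact fun _ hV => hV.2 T h
  · exact Irr.of_three hT.1 h
  · exact Irr.of_457 hT.1 h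

end Pool.Agent.Results.MP_71c87b_al.Irreducible
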