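import Pool.Agent.Lib.MP_71c87b_al.Sparse

/-!
Counted by genus, the least Frobenius variety containing the complete intersections is a
vanishing proportion of all numerical semigroups.
-/

namespace Pool.Agent.Results.MP_71c87b_al.SparseByGenus

open Pool.Agent.Lib.MP_71c87b_al Pool.Agent.Lib.MP_71c87b_al.Sparse Filter
open scoped goldenRatio

theorem result : ∀ᶠ γ : ℕ in atTop,
    {T : AddSubmonoid ℕ | IsNumerical T ∧ ((T : Set ℕ)ᶜ).ncard = γ}.Finite ∧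
    (({T : AddSubmonoid ℕ | T ∈ VCI ∧ ((T : Set ℕ)ᶜ).ncard = γ}.ncard : ℕ) : ℝ) ≤
      Real.exp (-(γ / (200 * Real.log γ ^ 2))) *
        (({T : AddSubmonoid ℕ | IsNumerical T ∧ ((T : Set ℕ)ᶜ).ncard = γ}.ncard : ℕ) : ℝ) := by
  have ev1 : ∀ᶠ γ : ℕ in atTop, 6 ≤ Real.log γ :=
    (Real.tendsto_log_atTop.comp tendsto_natCast_atTop_atTop).eventually_ge_atTop 6
  have ev2 : ∀ᶠ γ : ℕ in atTop, ‖Real.log γ ^ 4‖ ≤ 1 / 2400 * ‖(γ : ℝ)‖ :=
    tendsto_natCast_atTop_atTop.eventually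
      ((Real.isLittleO_pow_log_id_atTop (n := 4)).bound (by norm_num : (0 : ℝ) < 1 / 2400))
  filter_upwards [ev1, ev2, eventually_ge_atTop 2] with γ h6 h4 h2
  refine ⟨all_finite γ, ?_⟩
  set L := Real.log γ with hL
  have hγ : (2 : ℝ) ≤ γ := by exact_mod_cast h2
  rw [Real.norm_of_nonneg (by positivity), Real.norm_of_nonneg (by positivity)] at h4
  have hL2 : 36 ≤ L ^ 2 := by nlinarith
  have hL4 : 36 * L ^ 2 ≤ L ^ 4 := by nlinarith
  set e := Nat.log 2 (4 * γ) + 1 with he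
  set K := ⌊(γ : ℝ) / (25 * L ^ 2)⌋₊ with hK
  have l2 := Real.log_two_gt_d9
  have l2' := Real.log_two_lt_d9
  have e1 : (e : ℝ) ≤ 2 * L := by
    have a1 : 2 ^ Nat.log 2 (4 * γ) ≤ 4 * γ := Nat.pow_log_le_self 2 (by omega)
    have a2 : (2 : ℝ) ^ Nat.log 2 (4 * γ) ≤ 2 ^ 2 * γ := by exact_mod_cast a1
    have a3 := Real.log_le_log (by positivity) a2
    rw [Real.log_mul (by norm_num) (by positivity), Real.log_pow, Real.log_pow, ← hL] at a3
    have a4 : (e : ℝ) = Nat.log 2 (4 * γ) + 1 := by rw [he]; push_cast; ring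
    push_cast at a3
    by_contra hc
    push Not at hc
    nlinarith
  have k1 : (K : ℝ) ≤ γ / (25 * L ^ 2) := Nat.floor_le (by positivity)
  have k2 : (γ : ℝ) / (25 * L ^ 2) < K + 1 := Nat.lt_floor_add_one _
  set q := (γ : ℝ) / L ^ 2 with hq
  have hq1 : q * L ^ 2 = γ := by rw [hq]; field_simp
  have hq2 : (γ : ℝ) / (25 * L ^ 2) = q / 25 := by rw [hq]; field_simp
  have hq3 : (γ : ℝ) / (200 * L ^ 2) = q / 200 := by rw [hq]; field_simp
  have hq4 : 2400 * L ^ 2 ≤ q := by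
    rw [hq, le_div_iff₀ (by positivity)]; nlinarith
  rw [hq2] at k1 k2
  have c1 : 2 * (e * ((2 * e + 3) * K + 1)) ≤ γ := by
    have b1 : ((2 * e + 3) * K + 1 : ℝ) ≤ 5 * L * (q / 25) + 1 := by
      have : ((2 * e + 3) * K : ℝ) ≤ 5 * L * (q / 25) :=
        mul_le_mul (by linarith) k1 (by positivity) (by positivity)
      linarith
    have b2 : (e * ((2 * e + 3) * K + 1) : ℝ) ≤ 2 * L * (5 * L * (q / 25) + 1) :=
      mul_le_mul e1 b1 (by positivity) (by positivity)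
    have b3 : (2 * (e * ((2 * e + 3) * K + 1)) : ℝ) ≤ γ := by nlinarith
    exact_mod_cast b3
  have up := upper (Nat.lt_pow_succ_log_self (by norm_num) (4 * γ)).le (by omega) c1
  have lo := lower γ
  set a := (({T : AddSubmonoid ℕ | IsNumerical T ∧ ((T : Set ℕ)ᶜ).ncard = γ}.ncard : ℕ) : ℝ)
  have ha : 0 ≤ a := Nat.cast_nonneg _
  have d1 : ((4 : ℝ) / 5) ^ K ≤ Real.exp (-(K / 5)) := by
    have : (4 : ℝ) / 5 ≤ Real.exp (-(1 / 5)) := by
      have := Real.add_one_le_exp (-(1 / 5) : ℝ)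
      linarith
    calc _ ≤ Real.exp (-(1 / 5)) ^ K := pow_le_pow_left₀ (by norm_num) this _
      _ = _ := by rw [← Real.exp_nat_mul]; congr 1; ring
  have d2 : ((e : ℝ) + 1) * (2 * γ) ^ (e + 2) * (3 * (γ + 1)) ≤ Real.exp (6 * L ^ 2) := by
    have f1 : (e : ℝ) + 1 ≤ 2 * γ := by nlinarith
    have f2 : (3 * (γ + 1) : ℝ) ≤ (2 * γ) ^ 2 := by nlinarith
    have f3 : (2 * γ : ℝ) ≤ Real.exp (2 * L) := by
      rw [two_mul L, Real.exp_add, hL, Real.exp_log (by positivity)]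
      nlinarith
    calc _ ≤ (2 * γ : ℝ) * (2 * γ) ^ (e + 2) * (2 * γ) ^ 2 := by gcongr
      _ = (2 * γ : ℝ) ^ (e + 5) := by ring
      _ ≤ Real.exp (2 * L) ^ (e + 5) := by gcongr
      _ = Real.exp ((e + 5 : ℕ) * (2 * L)) := by rw [Real.exp_nat_mul]
      _ ≤ _ := by
        refine Real.exp_le_exp.2 ?_
        push_cast
        nlinarith
  rw [hq3]
  calc _ ≤ _ := up
    _ ≤ ((e + 1) * (2 * γ) ^ (e + 2) : ℕ) * ((3 * (γ + 1) * a) * Real.exp (-(K / 5))) := by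
        gcongr
    _ = (((e : ℝ) + 1) * (2 * γ) ^ (e + 2) * (3 * (γ + 1))) * Real.exp (-(K / 5)) * a := by
        push_cast; ring
    _ ≤ Real.exp (6 * L ^ 2) * Real.exp (-(K / 5)) * a := by gcongr
    _ ≤ _ := by
        rw [← Real.exp_add]
        exact mul_le_mul_of_nonneg_right (Real.exp_le_exp.2 (by linarith)) ha

end Pool.Agent.Results.MP_71c87b_al.SparseByGenus
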